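import Pool.Agent.U485.SM.Small
import Pool.Agent.U864.HT.CO2

/-!
# Distinct summands, one of them in `(√(2n), 4√(2n))`, in sieved random models of the primes

`T` is nondecreasing, `T(n) ≥ 2` for large `n`, `T(n) = n^{o(1)}`; every `n` without prime factors `≤ T(n)` is chosen
independently with probability `min(1, ∏_{p ≤ T(n)} (1 - 1/p)⁻¹ / log n)`. Almost surely every large even `2n` is the sum
of two distinct chosen numbers one of which is in `(√(2n), 4√(2n))`, in at least `(12 C - δ) √(2n)/(log 2n)²` ways.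

Project HT: packages of helper891, helper660, helper139, helper803, helper373, helper741, helper668, helper333,
helper618, helper864.
-/

set_option autoImplicit false

namespace Pool.Agent.Results.MP_b58c63_nt.AllWindowsInRandomModels

open MeasureTheory Filter Topology Pool.Agent.U485.SM

/-- the number of the pairs `p ≠ q` of elements of `Q` with `p + q = 2 n` and `√(2 n) < p < 4 √(2 n)` -/
noncomputable def partitions (Q : Set ℕ) (n : ℕ) : ℕ :=
  {p : ℕ × ℕ | p.1 ∈ Q ∧ p.2 ∈ Q ∧ p.1 ≠ p.2 ∧ p.1 + p.2 = 2 * n ∧ √((2 * n : ℕ) : ℝ) < p.1 ∧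
    (p.1 : ℝ) < 4 * √((2 * n : ℕ) : ℝ)}.ncard

theorem partitions_ge (Q : Set ℕ) (n : ℕ) (hn : 100 ≤ n) : inSqrt Q (2 * n) ≤ partitions Q n := by
  unfold inSqrt partitions
  have hnR : (100 : ℝ) ≤ n := by exact_mod_cast hn
  have hs : √((2 * n : ℕ) : ℝ) * √((2 * n : ℕ) : ℝ) = ((2 * n : ℕ) : ℝ) := Real.mul_self_sqrt (by positivity)
  have hs14 : 14 ≤ √((2 * n : ℕ) : ℝ) := by
    apply Real.le_sqrt_of_sq_le
    push_cast
    linarith
  have h4 : 4 * √((2 * n : ℕ) : ℝ) < n := by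
    have h5 : 14 * √((2 * n : ℕ) : ℝ) ≤ 2 * n := by
      have : ((2 * n : ℕ) : ℝ) = 2 * n := by push_cast; ring
      nlinarith
    nlinarith
  have hp : ∀ p : ℕ, (p : ℝ) < 4 * √((2 * n : ℕ) : ℝ) → p < n := fun p h => by
    have : (p : ℝ) < n := by linarith
    exact_mod_cast this
  have hinj : Set.InjOn (fun p : ℕ => (p, 2 * n - p))
      {p : ℕ | √((2 * n : ℕ) : ℝ) < p ∧ (p : ℝ) < 4 * √((2 * n : ℕ) : ℝ) ∧ p ∈ Q ∧ 2 * n - p ∈ Q} :=
    fun a _ b _ hab => congrArg Prod.fst hab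
  rw [← Set.ncard_image_of_injOn hinj]
  apply Set.ncard_le_ncard
  · rintro _ ⟨p, ⟨h1, h2, h3, h5⟩, rfl⟩
    have := hp p h2
    refine ⟨h3, h5, ?_, ?_, h1, h2⟩
    · show p ≠ 2 * n - p
      omega
    · show p + (2 * n - p) = 2 * n
      omega
  · apply ((Set.finite_Iic (2 * n)).prod (Set.finite_Iic (2 * n))).subset
    rintro ⟨p, q⟩ ⟨-, -, -, h, -, -⟩
    simp only at h
    constructor
    · show p ≤ 2 * n
      omega
    · show q ≤ 2 * n
      omega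

/-- **Distinct summands, one of them in `(√(2n), 4√(2n))`.** -/
theorem result : ∃ C : ℝ, 0 < C ∧
    Tendsto (fun y : ℕ => ∏ p ∈ (Finset.Icc 3 y).filter Nat.Prime, (1 - 1 / ((p : ℝ) - 1) ^ 2)) atTop (𝓝 C) ∧
    ∀ (Ω : Type) [MeasurableSpace Ω] (μ : Measure Ω) [IsProbabilityMeasure μ] (T : ℕ → ℕ) (E : ℕ → Set Ω),
      Monotone T → (∀ᶠ n in atTop, 2 ≤ T n) → (∀ ε : ℝ, 0 < ε → ∀ᶠ n : ℕ in atTop, (T n : ℝ) ≤ (n : ℝ) ^ ε) →
      Model μ T E → ∀ᵐ ω ∂μ, ∀ δ : ℝ, 0 < δ → ∀ᶠ n : ℕ in atTop,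
        (12 * C - δ) * √((2 * n : ℕ) : ℝ) / (Real.log ((2 * n : ℕ) : ℝ)) ^ 2 ≤
          (partitions {m | ω ∈ E m} n : ℝ) := by
  obtain ⟨C, hC0, hC, -⟩ := Pool.Agent.U864.HT.t_CO2
  refine ⟨C, hC0, hC, ?_⟩
  intro Ω _ μ _ T E hT hT2 hTs hE
  filter_upwards [ae_LawS hT hTs hE] with ω hω δ hδ
  have h2 : Tendsto (fun n : ℕ => 2 * n) atTop atTop := tendsto_id.const_mul_atTop' (by norm_num)
  filter_upwards [h2.eventually (sqrt_low hT2 hC0 hC hω δ hδ), eventually_ge_atTop 100] with n hn h100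
  refine (hn (even_two_mul n)).trans ?_
  exact_mod_cast partitions_ge {m | ω ∈ E m} n h100

end Pool.Agent.Results.MP_b58c63_nt.AllWindowsInRandomModels
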