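import Pool.Agent.U536.CF.F
import Pool.Agent.Results.MP_b58c63_nt.MultiplicativeValues

/-!
# Goldbach with a prime in `(√n, 4 √n)` and a rough second summand, for all even numbers near integers with a large common factor with a value of a multiplicative function

Let `f` be a positive multiplicative function of at most polynomial growth such that `f p ≤ M p` for the large primes `p`,
with different values at different large primes; for example Euler's function or the sum of the divisors. Let `G` have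
steps bounded below by a positive constant and growth at most `v^d`, for example `α v^d`. Let `b < 1` and `0 ≤ c < 2 b -
1`. For all `m ≤ N` but `N exp (-(log N)^c)`, for EVERY integer `w ≥ exp ((log N)^b)` with `gcd(w, f(m)) ≥ w^ρ`, ALL even
`n ≥ 1` with `|n - G w| ≤ w ^ κ` have at least `δ 𝔖(n) √n / (log n) ^ 2` primes `p` with `√n < p < 4 √n` such that `n - p
≥ 2` and all prime factors of `n - p` are larger than `n ^ u`, if `0 < u < 3 / 8`, `s > max (1 / 2) (4 u - 1 / 2)`, `κ ≥
0` and `d s + κ < ρ ≤ 1` (`δ > 0` depends only on `u` and `s`). The integers `w` include all large divisors of `f(m)` and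
their multiples by small integers; for Euler's function, the orders of the elements of the group of units modulo `m`.

Proof. Write `m = k u` with `u` squarefree and composed of primes larger than `N^(1/J)`, `J = (log N)^a`, and `k ≤ exp (4
(log N)^a)`; this is possible for all `m ≤ N` but very few. If `v ∣ f(k) f(u)`, then `v = g v'` with `g ∣ f(k)` and `v' ∣
∏ f(p)`, and the number of such `u ≤ N / k` is at most `N / (k v')` times `(log N)^O(J)` times the number `τ_J(v')` of the
ordered factorizations of `v'` into `J` factors. The inequality `τ_J^q ≤ τ_K` for `K ≥ J^q` and Hölder's inequality bound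
the sum over the sparse set of the exceptional `v`. The file `MultiplicativeValues` of the starting library treats the
integers `w = f(m)`, with `N / (log N)^U` exceptions.
-/

set_option autoImplicit false

namespace Pool.Agent.Results.MP_b58c63_nt.CommonFactors

open Finset
open Pool.Agent.Results.MP_b58c63_nt.EveryNumberInWindows (sing shortCount Exc count)
open Pool.Agent.N733.TG (LM Expanding lm_totient lm_sigma expanding_pow)
open Pool.Agent.U536.CF (Common common_win_nat common_of_dvd common_order)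

/-- **Goldbach with a prime in `(√n, 4 √n)` and a rough second summand, for all even numbers near integers with a large common
factor with a value of a multiplicative function.** Let `f` be multiplicative and positive, of at most polynomial growth,
with `f p ≤ M p` at the large primes, and injective there. Let `G` have steps `≥ a > 0` and growth at most `v^d`. Let `b <
1` and `0 ≤ c < 2 b - 1`, `0 < u < 3 / 8`, `s > max (1 / 2) (4 u - 1 / 2)`, `κ ≥ 0` and `d s + κ < ρ ≤ 1` (`δ > 0` depends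
only on `u` and `s`). For all large `N`, for all `m ≤ N` but `N exp (-(log N)^c)`, for EVERY integer `w ≥ exp ((log N)^b)`
with `gcd(w, f(m)) ≥ w^ρ`, ALL even `n ≥ 1` with `|n - G w| ≤ w ^ κ` have at least `δ 𝔖(n) √n / (log n) ^ 2` primes `p`
with `√n < p < 4 √n` such that `n - p ≥ 2` and all prime factors of `n - p` are larger than `n ^ u`. All divisors `w ≥ exp
((log N)^b)` of `f(m)` are such integers `w`, and for Euler's function the orders `≥ exp ((log N)^b)` of the units modulo
`m`. Euler's function and the sum of the divisors are examples of `f`, and `α v^d` with `α > 0`, `d ≥ 1` is an example of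
`G`. -/
theorem result :
    (∀ u s : ℝ, 0 < u → u < 3 / 8 → max (1 / 2) (4 * u - 1 / 2) < s → ∃ δ : ℝ, 0 < δ ∧
      ∀ f : ℕ → ℕ, LM f → ∀ (G : ℕ → ℝ) (d : ℝ), Expanding G d → ∀ κ ρ b c : ℝ, 0 ≤ κ → d * s + κ < ρ → ρ ≤ 1 →
      b < 1 → 0 ≤ c → c < 2 * b - 1 → ∃ N₀ : ℕ, ∀ N : ℕ, N₀ ≤ N →
      ({m : ℕ | 1 ≤ m ∧ m ≤ N ∧ ¬ ∀ w : ℕ, Common f b ρ N m w → ∀ n : ℕ, 1 ≤ n → Even n →
        |(n : ℝ) - G w| ≤ (w : ℝ) ^ κ →
        δ * sing n * (Real.sqrt n / Real.log n ^ 2) ≤ (shortCount u n : ℝ)}.ncard : ℝ) ≤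
        N * Real.exp (-(Real.log N ^ c))) ∧
    (LM Nat.totient ∧ LM (fun m => ∑ d ∈ m.divisors, d)) ∧
    (∀ α d : ℝ, 0 < α → 1 ≤ d → Expanding (fun v => α * (v : ℝ) ^ d) d) ∧
    (∀ (f : ℕ → ℕ) (b ρ : ℝ) (N m w : ℕ), ρ ≤ 1 → Real.exp (Real.log N ^ b) ≤ (w : ℝ) → w ∣ f m → Common f b ρ N m w) ∧
    ∀ (b ρ : ℝ) (N m : ℕ), ρ ≤ 1 → ∀ x : (ZMod m)ˣ, Real.exp (Real.log N ^ b) ≤ (orderOf x : ℝ) →
      Common Nat.totient b ρ N m (orderOf x) := by
  refine ⟨?_, ⟨lm_totient, lm_sigma⟩, fun α d hα hd => expanding_pow hα hd, fun f b ρ N m w hρ hw hd => common_of_dvd hρ hw hd,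
    fun b ρ N m hρ x hx => common_order hρ x hx⟩
  intro u s hu hu1 hs
  obtain ⟨δ, hδ, hcount⟩ := count u s hu hu1 hs
  refine ⟨δ, hδ, fun f hf G d hG κ ρ b c hκ h1 hρ hb hc hcb => ?_⟩
  have hs0 : 0 ≤ s := by
    have := le_max_left (1 / 2 : ℝ) (4 * u - 1 / 2)
    linarith
  obtain ⟨N₀, hN₀⟩ := common_win_nat (Exc u δ) hf hG (s := s) (κ := κ) hs0 hκ h1 hρ hb hc hcb hcount
  refine ⟨N₀, fun N hN => le_trans ?_ (hN₀ N hN)⟩
  have hfin : {m : ℕ | 1 ≤ m ∧ m ≤ N ∧ ∃ w : ℕ, Common f b ρ N m w ∧ ∃ n : ℕ, (n = 0 ∨ n ∈ Exc u δ) ∧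
      |(n : ℝ) - G w| ≤ (w : ℝ) ^ κ}.Finite := by
    apply (Set.finite_Icc 1 N).subset
    intro m hm
    exact ⟨hm.1, hm.2.1⟩
  have h2 : {m : ℕ | 1 ≤ m ∧ m ≤ N ∧ ¬ ∀ w : ℕ, Common f b ρ N m w → ∀ n : ℕ, 1 ≤ n → Even n →
      |(n : ℝ) - G w| ≤ (w : ℝ) ^ κ →
      δ * sing n * (Real.sqrt n / Real.log n ^ 2) ≤ (shortCount u n : ℝ)} ⊆
      {m : ℕ | 1 ≤ m ∧ m ≤ N ∧ ∃ w : ℕ, Common f b ρ N m w ∧ ∃ n : ℕ, (n = 0 ∨ n ∈ Exc u δ) ∧
      |(n : ℝ) - G w| ≤ (w : ℝ) ^ κ} := by
    rintro m ⟨h2, h3, h4⟩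
    push Not at h4
    obtain ⟨w, hw, n, hn1, hne, h5, h6⟩ := h4
    exact ⟨h2, h3, w, hw, n, Or.inr ⟨hne, h6⟩, h5⟩
  exact_mod_cast Set.ncard_le_ncard h2 hfin

end Pool.Agent.Results.MP_b58c63_nt.CommonFactors
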