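import Pool.Agent.U449.BV.F
import Pool.Agent.Results.MP_b58c63_nt.EveryNumberInWindows

/-!
# Goldbach with a prime in `(√N, 4 √N)` and a rough second summand, for all even numbers near residues of polynomials on
# arbitrary sets

Let `0 < u < 3 / 8`, `s > max (1 / 2) (4 u - 1 / 2)`, `κ ≥ 0` and `s + κ < δ ≤ 1`. Let `p₀` be a large prime, `f(x, y)` ANY polynomial of
degree at most `d` over the field of `p₀` elements with a monomial which contains both variables (for example `f = x y`), let
`A`, `B` be ARBITRARY sets of at least `p₀ ^ δ` residues, and `g`, `h` ARBITRARY functions from the residues to the residues. For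
all the pairs `(a, b)` in `A × B`, apart from a proportion of at most `p₀ ^ (-ρ)`, ALL even numbers `N` at a distance of at most
`p₀ ^ κ` from the least residue of `f(a, b) + g(a) + h(b)` have at least `δ₀ 𝔖(N) √N / (log N) ^ 2` primes `p` in `(√N, 4 √N)` such
that all prime factors of `N - p` are larger than `N ^ u`; for `u = 1 / 3` the number `N - p` is a prime or a product of two
primes. More generally, this holds for the values `F(a, b)` of all functions of two variables with few coincidences (`Rare`),
on arbitrary finite sets.

Since the sets and the functions `g` and `h` are arbitrary, the values have no arithmetic structure, and a value may be taken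
by very many pairs. So the number of the exceptions (starting library) does not give the result directly. Proof: the
inequality of Cauchy and Schwarz; for most pairs `a, a'` the difference `F(a, b) - F(a', b)` is small for few `b`
(`Pool.Agent.U449.BV`).
-/

set_option autoImplicit false

namespace Pool.Agent.Results.MP_b58c63_nt.MixedPolynomials

open Finset
open Pool.Agent.U449.BV (Rare OnProducts on_products_nat residues)
open Pool.Agent.Results.MP_b58c63_nt.EveryNumberInWindows (sing shortCount Exc count)

/-- ALL even `n ≥ 1` with `|n - x| ≤ W` have at least `δ₀ 𝔖(n) √n / (log n) ^ 2` primes `p` with `√n < p < 4 √n` such that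
`n - p ≥ 2` and all prime factors of `n - p` are larger than `n ^ u`. -/
def Near (u δ₀ : ℝ) (W x : ℝ) : Prop :=
  ∀ n : ℕ, 1 ≤ n → Even n → |(n : ℝ) - x| ≤ W →
    δ₀ * sing n * (Real.sqrt n / Real.log n ^ 2) ≤ (shortCount u n : ℝ)

/-- **Theorem.** Let `0 < u < 3 / 8` and `s > max (1 / 2) (4 u - 1 / 2)`. There is `δ₀ > 0` such that for all `κ ≥ 0` the property
`Near`, with windows of length `X ^ κ`, holds for almost all values of functions of two variables with few coincidences, on
arbitrary finite sets of at least `X ^ δ` elements, `s + κ < δ ≤ 1` (`OnProducts`).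
The least residues modulo a prime `p` of `f(a, b) + g(a) + h(b)` are such a function, with `X = p`, for all polynomials `f`
modulo `p` with a monomial which contains both variables, arbitrary functions `g` and `h`, and arbitrary sets of residues. -/
theorem result :
    (∀ u s : ℝ, 0 < u → u < 3 / 8 → max (1 / 2) (4 * u - 1 / 2) < s → ∃ δ₀ : ℝ, 0 < δ₀ ∧
      ∀ κ : ℝ, 0 ≤ κ → OnProducts (s + κ) κ (Near u δ₀)) ∧
    ∀ (p : ℕ) [Fact p.Prime] (d : ℕ) (f : MvPolynomial (Fin 2) (ZMod p)), f.totalDegree ≤ d →
      (∃ m ∈ f.support, m 0 ≠ 0 ∧ m 1 ≠ 0) → ∀ (g h : ZMod p → ZMod p) (A B : Finset (ZMod p)),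
        Rare d A B (fun a b => (((MvPolynomial.eval ![a, b] f + g a + h b).val : ℕ) : ℝ)) := by
  refine ⟨fun u s hu hu1 hs => ?_, residues⟩
  obtain ⟨δ₀, hδ₀, hcount⟩ := count u s hu hu1 hs
  refine ⟨δ₀, hδ₀, fun κ hκ => ?_⟩
  have hs0 : 0 ≤ s := by
    have := le_max_left (1 / 2 : ℝ) (4 * u - 1 / 2)
    linarith
  refine (on_products_nat (Exc u δ₀) (s := s) (κ := κ) hs0 hκ hcount).mono fun W x _ hg n _ hne hw => ?_
  by_contra h
  exact (hg n hw).2 ⟨hne, not_le.1 h⟩

end Pool.Agent.Results.MP_b58c63_nt.MixedPolynomials
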